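import Pool.Agent.H9.TE.Main

/-!
# Tree decompositions of graphs with large degrees divisible by `2 e(T)`

The Graham–Häggkvist conjecture would imply (by Petersen's theorem) that a tree `T` with `m` edges
decomposes every `2 m k`-regular graph. This is proved here for all `k` above an explicit polynomial
bound in `m`; the graph need not be regular, it is enough that all degrees are large and divisible
by `2 m`.
-/

set_option autoImplicit false

namespace Pool.Agent.Results.MP_df0165_co.LargeEvenDegrees

/-- Let `T` be a tree with `m` edges and `G` a finite simple graph such that every degree of `G` is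
divisible by `2 m` and every vertex of positive degree has degree at least
`10 ^ 7 * m ^ 5 * (⌊log₂ m⌋ + 1)`. Then `G` has a `T`-decomposition. -/
theorem result {W : Type} [Fintype W] (T : SimpleGraph W) (hT : T.IsTree) (m : ℕ)
    (hm : T.edgeSet.ncard = m) {V : Type} [Fintype V] (G : SimpleGraph V) [DecidableRel G.Adj]
    (hbig : ∀ v, G.degree v = 0 ∨ 10 ^ 7 * m ^ 5 * (Nat.log 2 m + 1) ≤ G.degree v)
    (hdiv : ∀ v, 2 * m ∣ G.degree v) :
    ∃ (k : ℕ) (H : Fin k → G.Subgraph),
      (∀ i, Nonempty (T ≃g (H i).coe)) ∧ ∀ e ∈ G.edgeSet, ∃! i, e ∈ (H i).edgeSet :=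
  Pool.Agent.H9.TE.core T hT m hm G hbig (Or.inl hdiv)

end Pool.Agent.Results.MP_df0165_co.LargeEvenDegrees
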